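import Mathlib

/-!
# Spans of `n`-tuple `T`-colorings, `T = {0, 1, ..., r}`: a value which is not attained

Füredi, Griggs and Kleitman asked whether for all `r ≥ 0`, `n ≥ 1`, `k ≥ 2` and every integer `s`
with `(r+1)(k-1) + 2(n-1) ≤ s ≤ (n+r)k - (r+1)` some graph has chromatic number `k` and
`sp_T^n = s`.  The answer is no: for `r = 3`, `n = 4` no finite graph at all has `sp_T^n = 16`,
although `14 ≤ 16 ≤ 17` is in the range for `k = 3`.

Reason: there is a map `h` from the four-element subsets of `{0, ..., 16}` (to be precise: those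
which occur in a coloring at a vertex with a neighbour) to those of `{0, ..., 15}` which preserves
the relation that all distances between the two sets are at least four (`table`, found by a SAT
solver and checked by the kernel), so every coloring of span `16` yields one of span at most `15`.
-/

set_option autoImplicit false

open Finset

namespace Pool.Agent.Results.MP_56aac4_co.SpanGap

/-- `S` is an `n`-tuple `T`-coloring of `G`, `T = {0, 1, ..., r}`: every vertex gets a set of
exactly `n` positive integers, and `|a - b| ∉ T` for all `a ∈ S x`, `b ∈ S y`, if `x`, `y` are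
adjacent. -/
def IsTColoring {V : Type*} (G : SimpleGraph V) (r n : ℕ) (S : V → Finset ℕ) : Prop :=
  (∀ x, (S x).card = n) ∧ (∀ x, ∀ a ∈ S x, 1 ≤ a) ∧
    ∀ x y, G.Adj x y → ∀ a ∈ S x, ∀ b ∈ S y, |(a : ℤ) - (b : ℤ)| ∉ Set.Icc (0 : ℤ) r

/-- the set of all integers used by `S` -/
def used {V : Type*} [Fintype V] (S : V → Finset ℕ) : Finset ℕ := univ.biUnion S

/-- the span: the largest integer used minus the smallest one -/
noncomputable def span {V : Type*} [Fintype V] (S : V → Finset ℕ) : ℕ :=
  (used S).sup id - sInf (used S : Set ℕ)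

/-- `sp_T^n(G)`, the minimum span of an `n`-tuple `T`-coloring of `G`, `T = {0, 1, ..., r}` -/
noncomputable def sp {V : Type*} [Fintype V] (G : SimpleGraph V) (r n : ℕ) : ℕ :=
  sInf {d | ∃ S, IsTColoring G r n S ∧ span S = d}

/-! ### The table -/

/-- the union of the translates of the set (given by its binary digits) by `-3, ..., 3` -/
def dil (m : ℕ) : ℕ :=
  m ||| (m <<< 1) ||| (m <<< 2) ||| (m <<< 3) ||| (m >>> 1) ||| (m >>> 2) ||| (m >>> 3)

/-- the table of the map `h`: set, image, and the sets `dil` of both; sets are encoded by their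
binary digits -/
def table : List (ℕ × ℕ × ℕ × ℕ) := [
  (15, 61440, 127, 523776), (23, 61440, 255, 523776), (39, 61440, 511, 523776),
  (71, 1920, 1023, 16368), (135, 1920, 2047, 16368), (263, 1920, 4095, 16368),
  (519, 1920, 8191, 16368), (1031, 1920, 16319, 16368), (2055, 1920, 32575, 16368),
  (4103, 1920, 65087, 16368), (8199, 15, 130111, 127), (16391, 49155, 260159, 522271),
  (32775, 49155, 520255, 522271), (65543, 49155, 1040447, 522271), (27, 61440, 255, 523776),
  (43, 61440, 511, 523776), (75, 1920, 1023, 16368), (139, 1920, 2047, 16368),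
  (267, 1920, 4095, 16368), (523, 1920, 8191, 16368), (16395, 12291, 260223, 130591),
  (32779, 12291, 520319, 130591), (65547, 12291, 1040511, 130591), (51, 61440, 511, 523776),
  (83, 1920, 1023, 16368), (147, 1920, 2047, 16368), (275, 1920, 4095, 16368),
  (531, 1920, 8191, 16368), (32787, 12291, 520447, 130591), (65555, 12291, 1040639, 130591),
  (99, 1920, 1023, 16368), (163, 1920, 2047, 16368), (291, 1920, 4095, 16368),
  (547, 1920, 8191, 16368), (65571, 12291, 1040895, 130591), (195, 1920, 2047, 16368),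
  (323, 1920, 4095, 16368), (579, 1920, 8191, 16368), (387, 1920, 4095, 16368),
  (643, 1920, 8191, 16368), (771, 1920, 8191, 16368), (1539, 1920, 16351, 16368),
  (3075, 1920, 32671, 16368), (6147, 1920, 65311, 16368), (12291, 15, 130591, 127),
  (20483, 15, 261663, 127), (36867, 15, 523807, 127), (69635, 15, 1048095, 127),
  (24579, 15, 261151, 127), (40963, 15, 523295, 127), (73731, 15, 1047583, 127),
  (49155, 49155, 522271, 522271), (81923, 49155, 1046559, 522271),
  (98307, 49155, 1044511, 522271), (29, 61440, 255, 523776), (45, 61440, 511, 523776),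
  (77, 1920, 1023, 16368), (141, 1920, 2047, 16368), (269, 1920, 4095, 16368),
  (525, 1920, 8191, 16368), (16397, 12291, 260223, 130591), (32781, 12291, 520319, 130591),
  (65549, 12291, 1040511, 130591), (53, 61440, 511, 523776), (85, 1920, 1023, 16368),
  (149, 1920, 2047, 16368), (277, 1920, 4095, 16368), (533, 1920, 8191, 16368),
  (32789, 12291, 520447, 130591), (65557, 12291, 1040639, 130591), (101, 1920, 1023, 16368),
  (165, 1920, 2047, 16368), (293, 1920, 4095, 16368), (549, 1920, 8191, 16368),
  (65573, 12291, 1040895, 130591), (197, 1920, 2047, 16368), (325, 1920, 4095, 16368),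
  (581, 1920, 8191, 16368), (389, 1920, 4095, 16368), (645, 1920, 8191, 16368),
  (773, 1920, 8191, 16368), (24581, 15, 261183, 127), (40965, 15, 523327, 127),
  (73733, 15, 1047615, 127), (49157, 49155, 522303, 522271), (81925, 49155, 1046591, 522271),
  (98309, 49155, 1044543, 522271), (57, 61440, 511, 523776), (89, 1920, 1023, 16368),
  (153, 1920, 2047, 16368), (281, 1920, 4095, 16368), (537, 1920, 8191, 16368),
  (32793, 12291, 520447, 130591), (65561, 12291, 1040639, 130591), (105, 1920, 1023, 16368),
  (169, 1920, 2047, 16368), (297, 1920, 4095, 16368), (553, 1920, 8191, 16368),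
  (65577, 12291, 1040895, 130591), (201, 1920, 2047, 16368), (329, 1920, 4095, 16368),
  (585, 1920, 8191, 16368), (393, 1920, 4095, 16368), (649, 1920, 8191, 16368),
  (777, 1920, 8191, 16368), (49161, 12291, 522367, 130591), (81929, 12291, 1046655, 130591),
  (98313, 12291, 1044607, 130591), (113, 1920, 1023, 16368), (177, 1920, 2047, 16368),
  (305, 1920, 4095, 16368), (561, 1920, 8191, 16368), (65585, 12291, 1040895, 130591),
  (209, 1920, 2047, 16368), (337, 1920, 4095, 16368), (593, 1920, 8191, 16368),
  (401, 1920, 4095, 16368), (657, 1920, 8191, 16368), (785, 1920, 8191, 16368),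
  (98321, 12291, 1044735, 130591), (225, 1920, 2047, 16368), (353, 1920, 4095, 16368),
  (609, 1920, 8191, 16368), (417, 1920, 4095, 16368), (673, 1920, 8191, 16368),
  (801, 1920, 8191, 16368), (449, 1920, 4095, 16368), (705, 1920, 8191, 16368),
  (833, 1920, 8191, 16368), (897, 1920, 8191, 16368), (1793, 1920, 16367, 16368),
  (3585, 1920, 32719, 16368), (7169, 1920, 65423, 16368), (14337, 15, 130831, 127),
  (22529, 15, 261903, 127), (38913, 15, 524047, 127), (71681, 15, 1048335, 127),
  (26625, 15, 261903, 127), (43009, 15, 524047, 127), (75777, 15, 1048335, 127),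
  (51201, 15, 524047, 127), (83969, 15, 1048335, 127), (100353, 15, 1048335, 127),
  (28673, 15, 261647, 127), (45057, 15, 523791, 127), (77825, 15, 1048079, 127),
  (53249, 15, 523791, 127), (86017, 15, 1048079, 127), (102401, 15, 1048079, 127),
  (57345, 15, 523279, 127), (90113, 15, 1047567, 127), (106497, 15, 1047567, 127),
  (114689, 49155, 1046543, 522271), (30, 61440, 255, 523776), (46, 61440, 511, 523776),
  (78, 1920, 1023, 16368), (142, 1920, 2047, 16368), (270, 1920, 4095, 16368),
  (526, 1920, 8191, 16368), (16398, 12291, 260223, 130591), (32782, 12291, 520319, 130591),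
  (65550, 12291, 1040511, 130591), (54, 61440, 511, 523776), (86, 1920, 1023, 16368),
  (150, 1920, 2047, 16368), (278, 1920, 4095, 16368), (534, 1920, 8191, 16368),
  (32790, 12291, 520447, 130591), (65558, 12291, 1040639, 130591), (102, 1920, 1023, 16368),
  (166, 1920, 2047, 16368), (294, 1920, 4095, 16368), (550, 1920, 8191, 16368),
  (65574, 12291, 1040895, 130591), (198, 1920, 2047, 16368), (326, 1920, 4095, 16368),
  (582, 1920, 8191, 16368), (390, 1920, 4095, 16368), (646, 1920, 8191, 16368),
  (774, 1920, 8191, 16368), (24582, 15, 261183, 127), (40966, 15, 523327, 127),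
  (73734, 15, 1047615, 127), (49158, 49155, 522303, 522271), (81926, 49155, 1046591, 522271),
  (98310, 49155, 1044543, 522271), (58, 61440, 511, 523776), (90, 1920, 1023, 16368),
  (154, 1920, 2047, 16368), (282, 1920, 4095, 16368), (538, 1920, 8191, 16368),
  (32794, 12291, 520447, 130591), (65562, 12291, 1040639, 130591), (106, 1920, 1023, 16368),
  (170, 1920, 2047, 16368), (298, 1920, 4095, 16368), (554, 1920, 8191, 16368),
  (65578, 12291, 1040895, 130591), (202, 1920, 2047, 16368), (330, 1920, 4095, 16368),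
  (586, 1920, 8191, 16368), (394, 1920, 4095, 16368), (650, 1920, 8191, 16368),
  (778, 1920, 8191, 16368), (49162, 12291, 522367, 130591), (81930, 12291, 1046655, 130591),
  (98314, 12291, 1044607, 130591), (114, 1920, 1023, 16368), (178, 1920, 2047, 16368),
  (306, 1920, 4095, 16368), (562, 1920, 8191, 16368), (65586, 12291, 1040895, 130591),
  (210, 1920, 2047, 16368), (338, 1920, 4095, 16368), (594, 1920, 8191, 16368),
  (402, 1920, 4095, 16368), (658, 1920, 8191, 16368), (786, 1920, 8191, 16368),
  (98322, 12291, 1044735, 130591), (226, 1920, 2047, 16368), (354, 1920, 4095, 16368),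
  (610, 1920, 8191, 16368), (418, 1920, 4095, 16368), (674, 1920, 8191, 16368),
  (802, 1920, 8191, 16368), (450, 1920, 4095, 16368), (706, 1920, 8191, 16368),
  (834, 1920, 8191, 16368), (898, 1920, 8191, 16368), (28674, 15, 261663, 127),
  (45058, 15, 523807, 127), (77826, 15, 1048095, 127), (53250, 15, 523807, 127),
  (86018, 15, 1048095, 127), (102402, 15, 1048095, 127), (57346, 15, 523295, 127),
  (90114, 15, 1047583, 127), (106498, 15, 1047583, 127), (114690, 49155, 1046559, 522271),
  (60, 61440, 511, 523776), (92, 1920, 1023, 16368), (156, 1920, 2047, 16368),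
  (284, 1920, 4095, 16368), (540, 1920, 8191, 16368), (32796, 12291, 520447, 130591),
  (65564, 12291, 1040639, 130591), (108, 1920, 1023, 16368), (172, 1920, 2047, 16368),
  (300, 1920, 4095, 16368), (556, 1920, 8191, 16368), (65580, 12291, 1040895, 130591),
  (204, 1920, 2047, 16368), (332, 1920, 4095, 16368), (588, 1920, 8191, 16368),
  (396, 1920, 4095, 16368), (652, 1920, 8191, 16368), (780, 1920, 8191, 16368),
  (49164, 12291, 522367, 130591), (81932, 12291, 1046655, 130591),
  (98316, 12291, 1044607, 130591), (116, 1920, 1023, 16368), (180, 1920, 2047, 16368),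
  (308, 1920, 4095, 16368), (564, 1920, 8191, 16368), (65588, 12291, 1040895, 130591),
  (212, 1920, 2047, 16368), (340, 1920, 4095, 16368), (596, 1920, 8191, 16368),
  (404, 1920, 4095, 16368), (660, 1920, 8191, 16368), (788, 1920, 8191, 16368),
  (98324, 12291, 1044735, 130591), (228, 1920, 2047, 16368), (356, 1920, 4095, 16368),
  (612, 1920, 8191, 16368), (420, 1920, 4095, 16368), (676, 1920, 8191, 16368),
  (804, 1920, 8191, 16368), (452, 1920, 4095, 16368), (708, 1920, 8191, 16368),
  (836, 1920, 8191, 16368), (900, 1920, 8191, 16368), (57348, 15, 523327, 127),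
  (90116, 15, 1047615, 127), (106500, 15, 1047615, 127), (114692, 49155, 1046591, 522271),
  (120, 1920, 1023, 16368), (184, 1920, 2047, 16368), (312, 1920, 4095, 16368),
  (568, 1920, 8191, 16368), (65592, 12291, 1040895, 130591), (216, 1920, 2047, 16368),
  (344, 1920, 4095, 16368), (600, 1920, 8191, 16368), (408, 1920, 4095, 16368),
  (664, 1920, 8191, 16368), (792, 1920, 8191, 16368), (98328, 12291, 1044735, 130591),
  (232, 1920, 2047, 16368), (360, 1920, 4095, 16368), (616, 1920, 8191, 16368),
  (424, 1920, 4095, 16368), (680, 1920, 8191, 16368), (808, 1920, 8191, 16368),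
  (456, 1920, 4095, 16368), (712, 1920, 8191, 16368), (840, 1920, 8191, 16368),
  (904, 1920, 8191, 16368), (114696, 12291, 1046655, 130591), (240, 1920, 2046, 16368),
  (368, 1920, 4094, 16368), (624, 1920, 8190, 16368), (1136, 480, 16382, 4092),
  (65648, 15, 1041406, 127), (432, 1920, 4094, 16368), (688, 1920, 8190, 16368),
  (1200, 480, 16382, 4092), (816, 1920, 8190, 16368), (1328, 480, 16382, 4092),
  (1584, 480, 16382, 4092), (98352, 15, 1044990, 127), (464, 1920, 4094, 16368),
  (720, 1920, 8190, 16368), (1232, 480, 16382, 4092), (848, 1920, 8190, 16368),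
  (1360, 480, 16382, 4092), (1616, 480, 16382, 4092), (912, 1920, 8190, 16368),
  (1424, 480, 16382, 4092), (1680, 480, 16382, 4092), (1808, 480, 16382, 4092),
  (114704, 15, 1046782, 127), (480, 1920, 4092, 16368), (736, 1920, 8188, 16368),
  (1248, 480, 16380, 4092), (2272, 480, 32764, 4092), (65760, 15, 1042428, 127),
  (864, 1920, 8188, 16368), (1376, 480, 16380, 4092), (2400, 480, 32764, 4092),
  (1632, 480, 16380, 4092), (2656, 480, 32764, 4092), (3168, 480, 32764, 4092),
  (98400, 15, 1045500, 127), (928, 1920, 8188, 16368), (1440, 480, 16380, 4092),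
  (2464, 480, 32764, 4092), (1696, 480, 16380, 4092), (2720, 480, 32764, 4092),
  (3232, 480, 32764, 4092), (1824, 480, 16380, 4092), (2848, 480, 32764, 4092),
  (3360, 480, 32764, 4092), (3616, 480, 32764, 4092), (114720, 15, 1047036, 127),
  (960, 1920, 8184, 16368), (1472, 480, 16376, 4092), (2496, 480, 32760, 4092),
  (4544, 480, 65528, 4092), (65984, 15, 1044472, 127), (1728, 480, 16376, 4092),
  (2752, 480, 32760, 4092), (4800, 480, 65528, 4092), (3264, 480, 32760, 4092),
  (5312, 480, 65528, 4092), (6336, 480, 65528, 4092), (98496, 15, 1046520, 127),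
  (1856, 480, 16376, 4092), (2880, 480, 32760, 4092), (4928, 480, 65528, 4092),
  (3392, 480, 32760, 4092), (5440, 480, 65528, 4092), (6464, 480, 65528, 4092),
  (3648, 480, 32760, 4092), (5696, 480, 65528, 4092), (6720, 480, 65528, 4092),
  (7232, 480, 65528, 4092), (114752, 15, 1047544, 127), (1920, 480, 16368, 4092),
  (2944, 480, 32752, 4092), (4992, 480, 65520, 4092), (9088, 15, 131056, 127),
  (17280, 15, 262128, 127), (33664, 15, 524272, 127), (66432, 15, 1048560, 127),
  (3456, 480, 32752, 4092), (5504, 480, 65520, 4092), (9600, 15, 131056, 127),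
  (17792, 15, 262128, 127), (34176, 15, 524272, 127), (66944, 15, 1048560, 127),
  (6528, 480, 65520, 4092), (10624, 15, 131056, 127), (18816, 15, 262128, 127),
  (35200, 15, 524272, 127), (67968, 15, 1048560, 127), (12672, 15, 131056, 127),
  (20864, 15, 262128, 127), (37248, 15, 524272, 127), (70016, 15, 1048560, 127),
  (24960, 15, 262128, 127), (41344, 15, 524272, 127), (74112, 15, 1048560, 127),
  (49536, 15, 524272, 127), (82304, 15, 1048560, 127), (98688, 15, 1048560, 127),
  (3712, 480, 32752, 4092), (5760, 480, 65520, 4092), (9856, 15, 131056, 127),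
  (18048, 15, 262128, 127), (34432, 15, 524272, 127), (67200, 15, 1048560, 127),
  (6784, 480, 65520, 4092), (10880, 15, 131056, 127), (19072, 15, 262128, 127),
  (35456, 15, 524272, 127), (68224, 15, 1048560, 127), (12928, 15, 131056, 127),
  (21120, 15, 262128, 127), (37504, 15, 524272, 127), (70272, 15, 1048560, 127),
  (25216, 15, 262128, 127), (41600, 15, 524272, 127), (74368, 15, 1048560, 127),
  (49792, 15, 524272, 127), (82560, 15, 1048560, 127), (98944, 15, 1048560, 127),
  (7296, 480, 65520, 4092), (11392, 15, 131056, 127), (19584, 15, 262128, 127),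
  (35968, 15, 524272, 127), (68736, 15, 1048560, 127), (13440, 15, 131056, 127),
  (21632, 15, 262128, 127), (38016, 15, 524272, 127), (70784, 15, 1048560, 127),
  (25728, 15, 262128, 127), (42112, 15, 524272, 127), (74880, 15, 1048560, 127),
  (50304, 15, 524272, 127), (83072, 15, 1048560, 127), (99456, 15, 1048560, 127),
  (14464, 15, 131056, 127), (22656, 15, 262128, 127), (39040, 15, 524272, 127),
  (71808, 15, 1048560, 127), (26752, 15, 262128, 127), (43136, 15, 524272, 127),
  (75904, 15, 1048560, 127), (51328, 15, 524272, 127), (84096, 15, 1048560, 127),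
  (100480, 15, 1048560, 127), (28800, 15, 262128, 127), (45184, 15, 524272, 127),
  (77952, 15, 1048560, 127), (53376, 15, 524272, 127), (86144, 15, 1048560, 127),
  (102528, 15, 1048560, 127), (57472, 15, 524272, 127), (90240, 15, 1048560, 127),
  (106624, 15, 1048560, 127), (114816, 15, 1048560, 127), (3840, 480, 32736, 4092),
  (5888, 480, 65504, 4092), (9984, 15, 131040, 127), (18176, 15, 262112, 127),
  (34560, 15, 524256, 127), (67328, 15, 1048544, 127), (6912, 480, 65504, 4092),
  (11008, 15, 131040, 127), (19200, 15, 262112, 127), (35584, 15, 524256, 127),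
  (68352, 15, 1048544, 127), (13056, 15, 131040, 127), (21248, 15, 262112, 127),
  (37632, 15, 524256, 127), (70400, 15, 1048544, 127), (25344, 15, 262112, 127),
  (41728, 15, 524256, 127), (74496, 15, 1048544, 127), (49920, 15, 524256, 127),
  (82688, 15, 1048544, 127), (99072, 15, 1048544, 127), (7424, 480, 65504, 4092),
  (11520, 15, 131040, 127), (19712, 15, 262112, 127), (36096, 15, 524256, 127),
  (68864, 15, 1048544, 127), (13568, 15, 131040, 127), (21760, 15, 262112, 127),
  (38144, 15, 524256, 127), (70912, 15, 1048544, 127), (25856, 15, 262112, 127),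
  (42240, 15, 524256, 127), (75008, 15, 1048544, 127), (50432, 15, 524256, 127),
  (83200, 15, 1048544, 127), (99584, 15, 1048544, 127), (14592, 15, 131040, 127),
  (22784, 15, 262112, 127), (39168, 15, 524256, 127), (71936, 15, 1048544, 127),
  (26880, 15, 262112, 127), (43264, 15, 524256, 127), (76032, 15, 1048544, 127),
  (51456, 15, 524256, 127), (84224, 15, 1048544, 127), (100608, 15, 1048544, 127),
  (28928, 15, 262112, 127), (45312, 15, 524256, 127), (78080, 15, 1048544, 127),
  (53504, 15, 524256, 127), (86272, 15, 1048544, 127), (102656, 15, 1048544, 127),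
  (57600, 15, 524256, 127), (90368, 15, 1048544, 127), (106752, 15, 1048544, 127),
  (114944, 15, 1048544, 127), (7680, 480, 65472, 4092), (11776, 15, 131008, 127),
  (19968, 15, 262080, 127), (36352, 15, 524224, 127), (69120, 15, 1048512, 127),
  (13824, 15, 131008, 127), (22016, 15, 262080, 127), (38400, 15, 524224, 127),
  (71168, 15, 1048512, 127), (26112, 15, 262080, 127), (42496, 15, 524224, 127),
  (75264, 15, 1048512, 127), (50688, 15, 524224, 127), (83456, 15, 1048512, 127),
  (99840, 15, 1048512, 127), (14848, 15, 131008, 127), (23040, 15, 262080, 127),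
  (39424, 15, 524224, 127), (72192, 15, 1048512, 127), (27136, 15, 262080, 127),
  (43520, 15, 524224, 127), (76288, 15, 1048512, 127), (51712, 15, 524224, 127),
  (84480, 15, 1048512, 127), (100864, 15, 1048512, 127), (29184, 15, 262080, 127),
  (45568, 15, 524224, 127), (78336, 15, 1048512, 127), (53760, 15, 524224, 127),
  (86528, 15, 1048512, 127), (102912, 15, 1048512, 127), (57856, 15, 524224, 127),
  (90624, 15, 1048512, 127), (107008, 15, 1048512, 127), (115200, 15, 1048512, 127),
  (15360, 15, 130944, 127), (23552, 15, 262016, 127), (39936, 15, 524160, 127),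
  (72704, 15, 1048448, 127), (27648, 15, 262016, 127), (44032, 15, 524160, 127),
  (76800, 15, 1048448, 127), (52224, 15, 524160, 127), (84992, 15, 1048448, 127),
  (101376, 15, 1048448, 127), (29696, 15, 262016, 127), (46080, 15, 524160, 127),
  (78848, 15, 1048448, 127), (54272, 15, 524160, 127), (87040, 15, 1048448, 127),
  (103424, 15, 1048448, 127), (58368, 15, 524160, 127), (91136, 15, 1048448, 127),
  (107520, 15, 1048448, 127), (115712, 15, 1048448, 127), (30720, 15, 261888, 127),
  (47104, 15, 524032, 127), (79872, 15, 1048320, 127), (55296, 15, 524032, 127),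
  (88064, 15, 1048320, 127), (104448, 15, 1048320, 127), (59392, 15, 524032, 127),
  (92160, 15, 1048320, 127), (108544, 15, 1048320, 127), (116736, 15, 1048320, 127),
  (61440, 15, 523776, 127), (94208, 15, 1048064, 127), (110592, 15, 1048064, 127),
  (118784, 15, 1048064, 127), (122880, 15, 1047552, 127)]

/-- the map `h` on codes; sets which do not occur in the table go to `{0, 1, 2, 3}` -/
def T (m : ℕ) : ℕ := ((table.find? (fun e => e.1 == m)).getD (0, 15, 0, 127)).2.1

/-- the number of positions below `17` allowed for the neighbours of a set -/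
def room (m : ℕ) : ℕ := (List.range 17).countP (fun i => !(Nat.testBit (dil m) i))

theorem check_pairs : (table.all fun e => table.all fun f =>
    !(Nat.land e.1 f.2.2.1 == 0) || (Nat.land e.2.1 f.2.2.2 == 0)) = true := by
  decide +kernel

theorem check_dil : (table.all fun e => (dil e.1 == e.2.2.1) && (dil e.2.1 == e.2.2.2)) = true := by
  decide +kernel

theorem check_card : ∀ e ∈ table, ((range 16).filter (fun i => e.2.1.testBit i)).card = 4 := by
  decide +kernel

theorem check_keys : ∀ a < 17, ∀ b < a, ∀ c < b, ∀ d < c,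
    (Nat.ble (room (2 ^ a + (2 ^ b + (2 ^ c + 2 ^ d)))) 3 ||
    (table.any (fun e => e.1 == (2 ^ a + (2 ^ b + (2 ^ c + 2 ^ d)))))) = true := by
  decide +kernel

/-! ### Codes of sets -/

/-- the code of a set -/
def code (A : Finset ℕ) : ℕ := ∑ i ∈ A, 2 ^ i

lemma testBit_code (A : Finset ℕ) (i : ℕ) : (code A).testBit i = true ↔ i ∈ A := by
  rw [← Nat.mem_bitIndices, ← List.mem_toFinset]
  unfold code
  rw [toFinset_bitIndices_sum_two_pow]

lemma testBit_dil (m i : ℕ) :
    (dil m).testBit i = true ↔ ∃ j, m.testBit j = true ∧ |(i : ℤ) - (j : ℤ)| ≤ 3 := by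
  unfold dil
  simp only [Nat.testBit_or, Nat.testBit_shiftLeft, Nat.testBit_shiftRight, Bool.or_eq_true,
    Bool.and_eq_true, decide_eq_true_eq]
  constructor
  · rintro ((((((h | h) | h) | h) | h) | h) | h)
    · exact ⟨i, h, by simp⟩
    · exact ⟨i - 1, h.2, by rw [abs_le]; omega⟩
    · exact ⟨i - 2, h.2, by rw [abs_le]; omega⟩
    · exact ⟨i - 3, h.2, by rw [abs_le]; omega⟩
    · exact ⟨1 + i, h, by rw [abs_le]; omega⟩
    · exact ⟨2 + i, h, by rw [abs_le]; omega⟩
    · exact ⟨3 + i, h, by rw [abs_le]; omega⟩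
  · rintro ⟨j, h1, h2⟩
    rw [abs_le] at h2
    have h3 : j = i ∨ (i ≥ 1 ∧ j = i - 1) ∨ (i ≥ 2 ∧ j = i - 2) ∨ (i ≥ 3 ∧ j = i - 3) ∨
        j = 1 + i ∨ j = 2 + i ∨ j = 3 + i := by omega
    rcases h3 with rfl | ⟨h4, rfl⟩ | ⟨h4, rfl⟩ | ⟨h4, rfl⟩ | rfl | rfl | rfl <;> tauto

lemma land_eq_zero (m q : ℕ) : m &&& q = 0 ↔ ∀ i, m.testBit i = true → q.testBit i = false := by
  constructor
  · intro h i hi
    have h1 : (m &&& q).testBit i = false := by rw [h]; simp
    rw [Nat.testBit_and, hi] at h1
    simpa using h1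
  · intro h
    apply Nat.eq_of_testBit_eq
    intro i
    rw [Nat.testBit_and, Nat.zero_testBit]
    by_cases hi : m.testBit i = true
    · rw [h i hi]; simp
    · simp only [Bool.not_eq_true] at hi
      rw [hi]; simp

/-- separated sets of positions -/
def Sep (m q : ℕ) : Prop :=
  ∀ i j, m.testBit i = true → q.testBit j = true → 3 < |(i : ℤ) - (j : ℤ)|

lemma sep_iff (m q : ℕ) : Sep m q ↔ m &&& dil q = 0 := by
  rw [land_eq_zero]
  constructor
  · intro h i hi
    by_contra hc
    rw [Bool.not_eq_false, testBit_dil] at hc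
    obtain ⟨j, h1, h2⟩ := hc
    have := h i j hi h1
    omega
  · intro h i j hi hj
    by_contra hc
    have h1 := h i hi
    have h2 : (dil q).testBit i = true := (testBit_dil q i).2 ⟨j, hj, by omega⟩
    rw [h2] at h1
    exact absurd h1 (by simp)

lemma split (N k : ℕ) (A : Finset ℕ) (hA : A ⊆ range N) (hc : A.card = k + 1) :
    ∃ a < N, ∃ B ⊆ range a, B.card = k ∧ code A = 2 ^ a + code B ∧
      ∀ x ∈ B, x ∈ A := by
  have hne : A.Nonempty := by
    rw [← card_pos]; omega
  refine ⟨A.max' hne, mem_range.1 (hA (A.max'_mem hne)), A.erase (A.max' hne), ?_, ?_, ?_, ?_⟩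
  · intro x hx
    rw [mem_erase] at hx
    rw [mem_range]
    exact lt_of_le_of_ne (A.le_max' x hx.2) hx.1
  · rw [card_erase_of_mem (A.max'_mem hne), hc]; rfl
  · unfold code
    rw [add_sum_erase A (fun i => 2 ^ i) (A.max'_mem hne)]
  · intro x hx
    exact (mem_erase.1 hx).2

/-- The sets which have a neighbour occur in the table. -/
lemma mem_table (A B : Finset ℕ) (hA : A ⊆ range 17) (hcA : A.card = 4) (hB : B ⊆ range 17)
    (hcB : B.card = 4) (h : Sep (code B) (code A)) : ∃ e ∈ table, e.1 = code A := by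
  obtain ⟨a, ha, A1, hA1, hc1, e1, -⟩ := split 17 3 A hA hcA
  obtain ⟨b, hb, A2, hA2, hc2, e2, -⟩ := split a 2 A1 hA1 hc1
  obtain ⟨c, hc, A3, hA3, hc3, e3, -⟩ := split b 1 A2 hA2 hc2
  obtain ⟨d, hd, A4, hA4, hc4, e4, -⟩ := split c 0 A3 hA3 hc3
  rw [card_eq_zero] at hc4
  have e5 : code A = 2 ^ a + (2 ^ b + (2 ^ c + 2 ^ d)) := by
    rw [e1, e2, e3, e4, hc4]
    simp [code]
  have h1 := check_keys a ha b hb c hc d hd
  rw [← e5, Bool.or_eq_true] at h1
  rcases h1 with h1 | h1
  · exfalso
    have h2 : room (code A) ≤ 3 := Nat.le_of_ble_eq_true h1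
    have h3 : B ⊆ ((List.range 17).filter (fun i => !(Nat.testBit (dil (code A)) i))).toFinset := by
      intro x hx
      rw [List.mem_toFinset, List.mem_filter, List.mem_range]
      refine ⟨mem_range.1 (hB hx), ?_⟩
      rw [sep_iff, land_eq_zero] at h
      rw [h x ((testBit_code B x).2 hx)]
      rfl
    have h4 := card_le_card h3
    have h5 := List.toFinset_card_le
      ((List.range 17).filter (fun i => !(Nat.testBit (dil (code A)) i)))
    rw [← List.countP_eq_length_filter] at h5
    unfold room at h2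
    omega
  · rw [List.any_eq_true] at h1
    obtain ⟨e, he, h2⟩ := h1
    exact ⟨e, he, by simpa using h2⟩

lemma T_mem (m : ℕ) (h : ∃ e ∈ table, e.1 = m) : ∃ e ∈ table, e.1 = m ∧ e.2.1 = T m := by
  have h1 : (table.find? (fun e => e.1 == m)).isSome = true := by
    rw [List.find?_isSome]
    obtain ⟨e, he, h2⟩ := h
    exact ⟨e, he, by simpa using h2⟩
  obtain ⟨e, he⟩ := Option.isSome_iff_exists.1 h1
  refine ⟨e, List.mem_of_find?_eq_some he, ?_, ?_⟩
  · have := List.find?_some he
    simpa using this
  · unfold T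
    rw [he]
    rfl

/-- the map `h` -/
def img (A : Finset ℕ) : Finset ℕ := (range 16).filter (fun i => (T (code A)).testBit i)

lemma img_card (A : Finset ℕ) : (img A).card = 4 := by
  unfold img
  by_cases h : ∃ e ∈ table, e.1 = code A
  · obtain ⟨e, he, -, h2⟩ := T_mem _ h
    rw [← h2]
    exact check_card e he
  · have h1 : table.find? (fun e => e.1 == code A) = none := by
      rw [List.find?_eq_none]
      intro e he h2
      exact h ⟨e, he, by simpa using h2⟩
    have h2 : T (code A) = 15 := by
      unfold T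
      rw [h1]
      rfl
    rw [h2]
    decide

lemma img_sep (A B : Finset ℕ) (hA : A ⊆ range 17) (hcA : A.card = 4) (hB : B ⊆ range 17)
    (hcB : B.card = 4) (h : ∀ a ∈ A, ∀ b ∈ B, 3 < |(a : ℤ) - (b : ℤ)|) :
    ∀ a ∈ img A, ∀ b ∈ img B, 3 < |(a : ℤ) - (b : ℤ)| := by
  have hs : Sep (code A) (code B) := fun i j hi hj =>
    h i ((testBit_code A i).1 hi) j ((testBit_code B j).1 hj)
  have hs' : Sep (code B) (code A) := fun i j hi hj => by
    rw [abs_sub_comm]
    exact hs j i hj hi
  obtain ⟨e, he, he1, he2⟩ := T_mem _ (mem_table A B hA hcA hB hcB hs')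
  obtain ⟨f, hf, hf1, hf2⟩ := T_mem _ (mem_table B A hB hcB hA hcA hs)
  have h1 := check_pairs
  rw [List.all_eq_true] at h1
  have h2 := h1 e he
  rw [List.all_eq_true] at h2
  have h3 := h2 f hf
  have hd := check_dil
  rw [List.all_eq_true] at hd
  have hdf := hd f hf
  simp only [Bool.and_eq_true, beq_iff_eq] at hdf
  rw [sep_iff, ← he1, ← hf1] at hs
  simp only [Bool.or_eq_true, Bool.not_eq_true', beq_eq_false_iff_ne, ne_eq, beq_iff_eq] at h3
  have h4 : Nat.land e.2.1 f.2.2.2 = 0 := by
    rcases h3 with h3 | h3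
    · exfalso
      apply h3
      rw [← hdf.1]
      exact hs
    · exact h3
  have h5 : Sep e.2.1 f.2.1 := by
    rw [sep_iff, hdf.2]
    exact h4
  intro a ha b hb
  unfold img at ha hb
  rw [mem_filter] at ha hb
  rw [← he2] at ha
  rw [← hf2] at hb
  exact h5 a b ha.2 hb.2

/-! ### The theorem -/

lemma sInf_le_used {V : Type*} [Fintype V] (S : V → Finset ℕ) (x : V) (a : ℕ) (ha : a ∈ S x) :
    sInf (used S : Set ℕ) ≤ a ∧ a ≤ (used S).sup id := by
  have h : a ∈ used S := mem_biUnion.2 ⟨x, mem_univ x, ha⟩
  exact ⟨Nat.sInf_le (by exact_mod_cast h), Finset.le_sup (f := id) h⟩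

/-- No finite graph has `sp_T^4 = 16`, `T = {0, 1, 2, 3}`. -/
theorem sp_ne {V : Type*} [Fintype V] (G : SimpleGraph V) : sp G 3 4 ≠ 16 := by
  intro h16
  have hne : {d | ∃ S, IsTColoring G 3 4 S ∧ span S = d}.Nonempty := by
    by_contra hc
    rw [Set.not_nonempty_iff_eq_empty] at hc
    unfold sp at h16
    rw [hc, Nat.sInf_empty] at h16
    omega
  obtain ⟨S, hS, hsp⟩ := Nat.sInf_mem hne
  have hsp' : span S = 16 := by
    rw [hsp]
    exact h16
  set m := sInf (used S : Set ℕ) with hm
  set A : V → Finset ℕ := fun x => (S x).image (fun a => a - m) with hAdef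
  have hle : ∀ x, ∀ a ∈ S x, m ≤ a ∧ a ≤ m + 16 := by
    intro x a ha
    obtain ⟨h1, h2⟩ := sInf_le_used S x a ha
    unfold span at hsp'
    rw [← hm] at hsp' h1
    omega
  have hA17 : ∀ x, A x ⊆ range 17 := by
    intro x y hy
    rw [hAdef] at hy
    simp only [mem_image] at hy
    obtain ⟨a, ha, rfl⟩ := hy
    have := hle x a ha
    rw [mem_range]
    omega
  have hAc : ∀ x, (A x).card = 4 := by
    intro x
    rw [hAdef]
    simp only
    rw [card_image_of_injOn, hS.1 x]
    intro a ha b hb hab
    have h1 := hle x a ha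
    have h2 := hle x b hb
    simp only at hab
    omega
  have hAsep : ∀ x y, G.Adj x y → ∀ a ∈ A x, ∀ b ∈ A y, 3 < |(a : ℤ) - (b : ℤ)| := by
    intro x y hxy a ha b hb
    rw [hAdef] at ha hb
    simp only [mem_image] at ha hb
    obtain ⟨a', ha', rfl⟩ := ha
    obtain ⟨b', hb', rfl⟩ := hb
    have h1 := hS.2.2 x y hxy a' ha' b' hb'
    rw [Set.mem_Icc, not_and, not_le] at h1
    have h2 := h1 (abs_nonneg _)
    have h3 := hle x a' ha'
    have h4 := hle y b' hb'
    have h5 : ((a' - m : ℕ) : ℤ) - ((b' - m : ℕ) : ℤ) = (a' : ℤ) - (b' : ℤ) := by omega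
    rw [h5]
    exact_mod_cast h2
  set S' : V → Finset ℕ := fun x => (img (A x)).image (fun a => a + 1) with hS'def
  have hS' : IsTColoring G 3 4 S' := by
    refine ⟨fun x => ?_, fun x a ha => ?_, fun x y hxy a ha b hb => ?_⟩
    · rw [hS'def]
      simp only
      rw [card_image_of_injective _ (fun a b hab => by simpa using hab), img_card]
    · rw [hS'def] at ha
      simp only [mem_image] at ha
      obtain ⟨a', -, rfl⟩ := ha
      omega
    · rw [hS'def] at ha hb
      simp only [mem_image] at ha hb
      obtain ⟨a', ha', rfl⟩ := ha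
      obtain ⟨b', hb', rfl⟩ := hb
      have h1 := img_sep (A x) (A y) (hA17 x) (hAc x) (hA17 y) (hAc y) (hAsep x y hxy) a' ha' b' hb'
      rw [Set.mem_Icc, not_and, not_le]
      intro _
      have h2 : ((a' + 1 : ℕ) : ℤ) - ((b' + 1 : ℕ) : ℤ) = (a' : ℤ) - (b' : ℤ) := by omega
      rw [h2]
      exact_mod_cast h1
  have hbd : ∀ a ∈ used S', 1 ≤ a ∧ a ≤ 16 := by
    intro a ha
    unfold used at ha
    rw [mem_biUnion] at ha
    obtain ⟨x, -, hx⟩ := ha
    rw [hS'def] at hx
    simp only [mem_image] at hx
    obtain ⟨a', ha', rfl⟩ := hx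
    unfold img at ha'
    rw [mem_filter, mem_range] at ha'
    omega
  have hspan : span S' ≤ 15 := by
    unfold span
    by_cases hu : (used S').Nonempty
    · have h1 : sInf (used S' : Set ℕ) ∈ (used S' : Set ℕ) := Nat.sInf_mem (by exact_mod_cast hu)
      have h2 := hbd _ (by exact_mod_cast h1)
      have h3 : (used S').sup id ≤ 16 := Finset.sup_le fun a ha => (hbd a ha).2
      omega
    · rw [not_nonempty_iff_eq_empty] at hu
      rw [hu]
      simp
  have hfin : sp G 3 4 ≤ span S' := Nat.sInf_le ⟨S', hS', rfl⟩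
  omega

/-- **The answer to the question of Füredi, Griggs and Kleitman is negative.**  No finite graph `G`
has `sp_T^4(G) = 16` for `T = {0, 1, 2, 3}`; so it is not true that for all `r ≥ 0`, `n ≥ 1`,
`k ≥ 2` and every `s` with `(r+1)(k-1) + 2(n-1) ≤ s ≤ (n+r)k - (r+1)` there is a finite graph with
chromatic number `k` and `sp_T^n = s`, `T = {0, 1, ..., r}` (take `r = 3`, `n = 4`, `k = 3`,
`s = 16`). -/
theorem result :
    (∀ (V : Type) [Fintype V] (G : SimpleGraph V), sp G 3 4 ≠ 16) ∧
    ¬ ∀ r n k s : ℕ, 1 ≤ n → 2 ≤ k → (r + 1) * (k - 1) + 2 * (n - 1) ≤ s →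
      s ≤ (n + r) * k - (r + 1) →
      ∃ (V : Type) (_ : Fintype V) (G : SimpleGraph V), G.chromaticNumber = k ∧ sp G r n = s := by
  refine ⟨fun V _ G => sp_ne G, fun h => ?_⟩
  obtain ⟨V, _, G, -, h1⟩ := h 3 4 3 16 (by norm_num) (by norm_num) (by norm_num) (by norm_num)
  exact sp_ne G h1

end Pool.Agent.Results.MP_56aac4_co.SpanGap
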